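import Pool.Agent.Helper8.BR.Defs

/-!
# Project BR, block GLOB: an order basis, integrality, non scalar elements
-/

set_option autoImplicit false

namespace Pool.Agent.Helper16.BR

open NumberField IsDedekindDomain Polynomial Module Pool.Agent.Helper8.BR

variable {L D : Type} [Field L] [NumberField L] [Ring D] [Algebra L D] [Module.Finite L D]

omit [NumberField L] [Module.Finite L D] in
theorem isInteger_mul_repr {d : ℕ} (b : Basis (Fin d × Fin d) L D) (N : L) (hN : N ≠ 0)
    (i j k : Fin d × Fin d) :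
    (b.isUnitSMul (fun _ => (isUnit_iff_ne_zero.2 hN : IsUnit N))).repr
      ((b.isUnitSMul (fun _ => (isUnit_iff_ne_zero.2 hN : IsUnit N))) i *
        (b.isUnitSMul (fun _ => (isUnit_iff_ne_zero.2 hN : IsUnit N))) j) k
      = N * b.repr (b i * b j) k := by
  set b' := b.isUnitSMul (fun _ => (isUnit_iff_ne_zero.2 hN : IsUnit N)) with hb'
  have h1 : ∀ i, b' i = N • b i := fun i => by rw [hb', Basis.isUnitSMul_apply]
  have h2 : b' i * b' j = ∑ k, (N * b.repr (b i * b j) k) • b' k := by
    have h3 : b i * b j = ∑ k, (b.repr (b i * b j) k) • b k := (b.sum_repr (b i * b j)).symm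
    rw [h1, h1, smul_mul_smul_comm]
    calc (N * N) • (b i * b j) = (N * N) • ∑ k, (b.repr (b i * b j) k) • b k := by rw [← h3]
      _ = _ := by
        rw [Finset.smul_sum]
        refine Finset.sum_congr rfl fun k _ => ?_
        rw [h1, smul_smul, smul_smul]
        congr 1
        ring
  rw [h2, Basis.repr_sum_self]

/-- O1 -/
theorem exists_order_basis' (L D : Type) [Field L] [NumberField L] [Ring D] [Algebra L D]
    [Module.Finite L D] {d : ℕ} (hd : finrank L D = d ^ 2) :
    ∃ b : Basis (Fin d × Fin d) L D,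
      ∀ i j k, b.repr (b i * b j) k ∈ Set.range (algebraMap (𝓞 L) L) := by
  classical
  let e : Fin (d ^ 2) ≃ Fin d × Fin d := Fintype.equivOfCardEq (by simp [pow_two])
  let b : Basis (Fin d × Fin d) L D := (Module.finBasisOfFinrankEq L D hd).reindex e
  let s : Finset L := (Finset.univ : Finset ((Fin d × Fin d) × (Fin d × Fin d) × (Fin d × Fin d))).image
    fun q => b.repr (b q.1 * b q.2.1) q.2.2
  obtain ⟨N, hN⟩ := IsLocalization.exist_integer_multiples_of_finset
    (nonZeroDivisors (𝓞 L)) s
  have hN0 : (algebraMap (𝓞 L) L N) ≠ 0 := by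
    have := nonZeroDivisors.coe_ne_zero N
    intro h
    exact this ((map_eq_zero_iff _ (FaithfulSMul.algebraMap_injective (𝓞 L) L)).1 h)
  refine ⟨b.isUnitSMul (fun _ => (isUnit_iff_ne_zero.2 hN0)), fun i j k => ?_⟩
  rw [isInteger_mul_repr b _ hN0]
  have h1 := hN (b.repr (b i * b j) k) (Finset.mem_image.2 ⟨(i, j, k), Finset.mem_univ _, rfl⟩)
  obtain ⟨y, hy⟩ := h1
  refine ⟨y, ?_⟩
  rw [hy, Algebra.smul_def]

/-- O1 -/
theorem exists_order_basis {d : ℕ} (hd : finrank L D = d ^ 2) :
    ∃ b : Basis (Fin d × Fin d) L D,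
      ∀ i j k, b.repr (b i * b j) k ∈ Set.range (algebraMap (𝓞 L) L) :=
  exists_order_basis' L D hd

/-- O2 -/
theorem good_int {d : ℕ} (b : Basis (Fin d × Fin d) L D)
    (hb : ∀ i j k, b.repr (b i * b j) k ∈ Set.range (algebraMap (𝓞 L) L))
    (w : HeightOneSpectrum (𝓞 L)) (c : Fin d × Fin d → L) (hc : ∀ k, w.valuation L (c k) ≤ 1) :
    IntD w (∑ k, c k • b k) := by
  classical
  intro n
  set x := ∑ k, c k • b k with hx
  have hent : ∀ i j, LinearMap.toMatrix b b (LinearMap.mulLeft L x) i j ∈
      (w.valuation L).integer := by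
    intro i j
    rw [LinearMap.toMatrix_apply, LinearMap.mulLeft_apply, hx, Finset.sum_mul, map_sum,
      Finset.sum_apply']
    refine Subring.sum_mem _ fun k _ => ?_
    rw [smul_mul_assoc, map_smul, Finsupp.smul_apply, smul_eq_mul]
    refine Subring.mul_mem _ (hc k) ?_
    obtain ⟨y, hy⟩ := hb k j i
    rw [← hy]
    exact w.valuation_le_one y
  let M : Matrix (Fin d × Fin d) (Fin d × Fin d) (w.valuation L).integer :=
    Matrix.of fun i j => ⟨_, hent i j⟩
  have hM : M.map ((w.valuation L).integer.subtype) =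
      LinearMap.toMatrix b b (LinearMap.mulLeft L x) := by
    ext i j
    rfl
  have h1 : chi L x = M.charpoly.map ((w.valuation L).integer.subtype) := by
    rw [chi, ← LinearMap.charpoly_toMatrix (LinearMap.mulLeft L x) b, ← hM,
      Matrix.charpoly_map]
  rw [h1, Polynomial.coeff_map]
  exact (M.charpoly.coeff n).2

/-- O5 -/
theorem not_scalar (hN : finrank L D ≠ 0) (x : D) (hx : x ≠ 0) (h : tr L x = 0) :
    x ∉ Set.range (algebraMap L D) := by
  rintro ⟨c, rfl⟩
  have h1 : LinearMap.mulLeft L (algebraMap L D c) = c • (LinearMap.id : D →ₗ[L] D) := by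
    ext y
    simp [Algebra.smul_def]
  rw [tr, h1, map_smul, LinearMap.trace_id, smul_eq_mul] at h
  rcases mul_eq_zero.1 h with h2 | h2
  · exact hx (by rw [h2, map_zero])
  · exact hN (by exact_mod_cast h2)

end Pool.Agent.Helper16.BR
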