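import Pool.Agent.Helper8.BR.Defs

/-!
# Project BR, block GLOB: integrality of the characteristic polynomial from a representation
-/

set_option autoImplicit false

namespace Pool.Agent.Helper16.BR

open NumberField IsDedekindDomain Polynomial Module Pool.Agent.Helper8.BR

variable {L D : Type} [Field L] [NumberField L] [Ring D] [Algebra L D] [Module.Finite L D]

/-- O3 with the formula for the characteristic polynomial as a hypothesis -/
theorem rep_int_of {d : ℕ} (w : HeightOneSpectrum (𝓞 L))
    (φ : D →ₐ[L] Matrix (Fin d) (Fin d) (w.adicCompletion L)) (x : D)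
    (hchi : (chi L x).map (algebraMap L (w.adicCompletion L)) =
      (Matrix.kronecker (φ x) (1 : Matrix (Fin d) (Fin d) (w.adicCompletion L))).charpoly)
    (hx : ∀ i j, φ x i j ∈ w.adicCompletionIntegers L) : IntD w x := by
  classical
  intro n
  have hent : ∀ i j, (Matrix.kronecker (φ x)
      (1 : Matrix (Fin d) (Fin d) (w.adicCompletion L))) i j ∈ w.adicCompletionIntegers L := by
    intro i j
    change φ x i.1 j.1 * (1 : Matrix (Fin d) (Fin d) (w.adicCompletion L)) i.2 j.2 ∈ _
    rw [Matrix.one_apply]
    refine mul_mem (hx _ _) ?_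
    split_ifs
    · exact one_mem _
    · exact zero_mem _
  let M : Matrix (Fin d × Fin d) (Fin d × Fin d) (w.adicCompletionIntegers L) :=
    Matrix.of fun i j => ⟨_, hent i j⟩
  have hM : M.map ((w.adicCompletionIntegers L).subtype) =
      Matrix.kronecker (φ x) (1 : Matrix (Fin d) (Fin d) (w.adicCompletion L)) := by
    ext i j
    rfl
  have h1 : algebraMap L (w.adicCompletion L) ((chi L x).coeff n) =
      (w.adicCompletionIntegers L).subtype (M.charpoly.coeff n) := by
    rw [← Polynomial.coeff_map, hchi, ← hM, Matrix.charpoly_map, Polynomial.coeff_map]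
  have h2 : algebraMap L (w.adicCompletion L) ((chi L x).coeff n) ∈
      w.adicCompletionIntegers L := by
    rw [h1]
    exact (M.charpoly.coeff n).2
  rw [HeightOneSpectrum.mem_adicCompletionIntegers] at h2
  rw [← HeightOneSpectrum.valuedAdicCompletion_eq_valuation']
  exact h2

end Pool.Agent.Helper16.BR
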