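import Pool.Agent.Helper8.BR.Defs

/-!
# Project BR, block GLOB: trace integral everywhere, small at infinity, hence zero
-/

set_option autoImplicit false

namespace Pool.Agent.Helper16.BR

open NumberField IsDedekindDomain Polynomial Module Pool.Agent.Helper8.BR

theorem tr_eq_neg_nextCoeff {L D : Type} [Field L] [Ring D] [Algebra L D] [Module.Finite L D]
    (x : D) : tr L x = -(chi L x).nextCoeff := by
  classical
  rw [tr, chi, LinearMap.trace_eq_matrix_trace L (Module.finBasis L D),
    ← LinearMap.charpoly_toMatrix (LinearMap.mulLeft L x) (Module.finBasis L D),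
    Matrix.trace_eq_neg_charpoly_nextCoeff]

variable {L D : Type} [Field L] [NumberField L] [Ring D] [Algebra L D] [Module.Finite L D]

theorem eq_zero_of_int {t : L} (h1 : ∀ w : HeightOneSpectrum (𝓞 L), w.valuation L t ≤ 1)
    (h : ∀ v : InfinitePlace L, v t < 1) : t = 0 := by
  obtain ⟨a, ha⟩ := HeightOneSpectrum.mem_integers_of_valuation_le_one (R := 𝓞 L) L t h1
  by_contra h0
  have ha0 : a ≠ 0 := by
    rintro rfl
    exact h0 (by rw [← ha, map_zero])
  obtain ⟨v⟩ : Nonempty (InfinitePlace L) := inferInstance
  have h2 := InfinitePlace.one_le_of_lt_one (w := v) ha0 (fun z _ => by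
    have := h z
    rwa [← ha] at this)
  have h3 := h v
  rw [← ha] at h3
  exact absurd h3 (not_lt.2 h2)

/-- O4: trace integral everywhere, small at infinity, hence zero -/
theorem trace_zero {N : ℕ} (_hN : finrank L D = N) (x : D)
    (hx : ∀ w : HeightOneSpectrum (𝓞 L), IntD w x)
    (h : ∀ v : InfinitePlace L, v (tr L x) < 1) : tr L x = 0 := by
  refine eq_zero_of_int (fun w => ?_) h
  rw [tr_eq_neg_nextCoeff, Valuation.map_neg, nextCoeff]
  split_ifs
  · rw [map_zero]
    exact zero_le
  · exact hx w _

end Pool.Agent.Helper16.BR
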